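import Pool.Agent.Y131.LM.Seq

/-!
# Pseudocompact or sequentially complete locally minimal groups with property Z_m

Every locally minimal precompact Hausdorff group with property `Z_m` embeds in a unitary group;
it is a compact Lie group if it is pseudocompact or sequentially complete, and the same holds for
all closed normal subgroups with property `Z_m` of a locally minimal precompact group.
-/

set_option autoImplicit false

open Pool.Agent.Y131.LM

namespace Pool.Agent.Results.MP_87c52b_gt.LocallyMinimal

/-- **Main theorem.**  (A) Let `G` be a Hausdorff topological group which is precompact and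
locally minimal and has property `Z_m`.  Then `G` is topologically isomorphic to a subgroup of a
unitary group `U(n)`; if `G` is pseudocompact or sequentially complete, then `G` is a compact Lie
group.  (B) The same statements hold for every closed normal subgroup `H` with property `Z_m` of a
precompact locally minimal Hausdorff group `G` (no other condition on `G`).
(C) The question: every pseudocompact minimal Hausdorff group with property `Z` is a compact Lie
group. -/
theorem result :
    (∀ (G : Type) [Group G] [TopologicalSpace G] [IsTopologicalGroup G] [T2Space G],
      Precpt G → LocMin G → PropZm G →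
        Linear G ∧ (Pseudocpt G → CptLie G) ∧ (SeqComplete G → CptLie G)) ∧
    (∀ (G : Type) [Group G] [TopologicalSpace G] [IsTopologicalGroup G] [T2Space G],
      Precpt G → LocMin G → ∀ H : Subgroup G, H.Normal → IsClosed (H : Set G) → PropZm H →
        Linear H ∧ (Pseudocpt H → CptLie H) ∧ (SeqComplete H → CptLie H)) ∧
    (∀ (G : Type) [Group G] [TopologicalSpace G] [IsTopologicalGroup G] [T2Space G],
      Pseudocpt G → Minl G → PropZ G → CptLie G) := by
  refine ⟨?_, ?_, ?_⟩
  · intro G _ _ _ _ hP hm hZ
    have h := self_linear hP hm hZ
    exact ⟨h, h.lie_ps, h.lie_seq⟩
  · intro G _ _ _ _ hP hm H hHn hH hZ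
    have h := normal_linear hP hm H hHn hH hZ
    exact ⟨h, h.lie_ps, h.lie_seq⟩
  · intro G _ _ _ _ hps hmin hZ
    exact (self_linear (precpt_of_pseudo hps) (locMin_of_minl hmin)
      (fun S h1 h2 _ => hZ S h1 h2)).lie_ps hps

end Pool.Agent.Results.MP_87c52b_gt.LocallyMinimal
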